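import Pool.Agent.Q327.TotTerm4

/-!
# Total termination is modular

The ground terms of the two signatures are ordered by the two given well-orderings. The lexicographic
products of these two well-orderings with the rational numbers are both isomorphic to the rational
numbers, so both systems act on the same chain. The values of the ground terms over the union of the
signatures form a well-ordered subset of this chain (a Kruskal type argument).
-/

set_option autoImplicit false

namespace Pool.Agent.Results.MP_8e1749_lc.Modular

open Pool.Agent.Q327.TT

/-- **Total termination is modular.** If `R₁` and `R₂` are totally terminating sets of rules over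
disjoint signatures (with countably many function symbols), then `R₁ ∪ R₂`, as a system over the union
of the signatures, is totally terminating. -/
theorem result {F₁ F₂ : Type} [Countable F₁] [Countable F₂] {ar₁ : F₁ → ℕ} {ar₂ : F₂ → ℕ}
    {V : Type} (R₁ : Set (Term ar₁ V × Term ar₁ V)) (R₂ : Set (Term ar₂ V × Term ar₂ V))
    (H₁ : TotallyTerminating R₁) (H₂ : TotallyTerminating R₂) :
    TotallyTerminating (unionRules R₁ R₂) :=
  main R₁ R₂ H₁ H₂

end Pool.Agent.Results.MP_8e1749_lc.Modular
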